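import Pool.Agent.Lib.MP_bc704c_co.R.Fin2

/-!
# MP_bc704c_co, Q1, `d = 4`, finite polytopes: the finite chiral polyhedra in `E^4`

`E^4` is identified with the quaternions by a similarity `Φ` which takes the centroid of the vertices to
`0` and a base vertex to `1`. The symmetry group is generated by `s`, which fixes `1` and turns the plane
of `j, k` (and multiplies `i` by `ε = ±1`), and by a half-turn `t v = a v b̄`.
-/

namespace Pool.Agent.Results.MP_bc704c_co.FinitePolyhedra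

open ChiralNF ChiralQ Quaternion

universe u u'

/-- **Classification of the finite chiral polyhedra in `E^4` up to similarity.** (1) Every one is given
by generators in standard form whose parameters are in the list `Full`. (2) All parameters in the list
occur (rotation type `ε = 1`: if only the powers of `s` fix the base vertex). (3) Two of them are similar
iff the five invariants `ε, c, α² + β², α β, ⟪u, w⟫` agree. (4) Rotation type: for given
`c, d, α, β, ρ, σ` all azimuths `(x, y)` of the unit circle except finitely many occur. -/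
theorem result :
    (∀ (F : Type u) [PartialOrder F] [BoundedOrder F] (rk : F → ℤ)
      (γ : F → EuclideanSpace ℝ (Fin 4)), Finite F → IsPolytope 3 F rk → IsRealization rk γ →
      IsChiral rk γ →
      ∃ (Φ : EuclideanSpace ℝ (Fin 4) → ℍ[ℝ]) (s t : ℍ[ℝ] ≃ₗᵢ[ℝ] ℍ[ℝ]) (ε c d : ℝ) (a b : ℍ[ℝ]),
        Std s t ε c d a b ∧ Full ε c a b ∧ Model rk γ Φ s t) ∧
    (∀ (s t : ℍ[ℝ] ≃ₗᵢ[ℝ] ℍ[ℝ]) (ε c d : ℝ) (a b : ℍ[ℝ]), Std s t ε c d a b → Full ε c a b →
      (ε = 1 → ∀ g ∈ GG s t, g 1 = 1 → g ∈ Subgroup.zpowers s) →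
      ∃ (F : Type) (_ : PartialOrder F) (_ : BoundedOrder F) (rk : F → ℤ)
        (γ : F → EuclideanSpace ℝ (Fin 4)) (Φ : EuclideanSpace ℝ (Fin 4) → ℍ[ℝ]),
        Finite F ∧ IsPolytope 3 F rk ∧ IsRealization rk γ ∧ IsChiral rk γ ∧
        Model rk γ Φ s t) ∧
    (∀ (F : Type u) [PartialOrder F] [BoundedOrder F] (rk : F → ℤ)
      (γ : F → EuclideanSpace ℝ (Fin 4)) (F' : Type u') [PartialOrder F'] [BoundedOrder F']
      (rk' : F' → ℤ) (γ' : F' → EuclideanSpace ℝ (Fin 4)),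
      IsPolytope 3 F rk → IsRealization rk γ → IsPolytope 3 F' rk' → IsRealization rk' γ' →
      ∀ (Φ Φ' : EuclideanSpace ℝ (Fin 4) → ℍ[ℝ]) (s t s' t' : ℍ[ℝ] ≃ₗᵢ[ℝ] ℍ[ℝ])
        (ε c d ε' c' d' : ℝ) (a b a' b' : ℍ[ℝ]), Std s t ε c d a b → Std s' t' ε' c' d' a' b' →
        Full ε c a b → Full ε' c' a' b' → Model rk γ Φ s t → Model rk' γ' Φ' s' t' →
        (Simil rk γ γ' ↔ Inv ε c a b ε' c' a' b')) ∧
    (∀ c d α β ρ σ : ℝ, c ^ 2 + d ^ 2 = 1 → d ≠ 0 → α ^ 2 + ρ ^ 2 = 1 → β ^ 2 + σ ^ 2 = 1 →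
      α ^ 2 ≠ β ^ 2 → Ax c (α ^ 2) → Ax c (β ^ 2) →
      {p : ℝ × ℝ | p.1 ^ 2 + p.2 ^ 2 = 1 ∧ ¬ ∃ (s t : ℍ[ℝ] ≃ₗᵢ[ℝ] ℍ[ℝ]) (F : Type)
        (_ : PartialOrder F) (_ : BoundedOrder F) (rk : F → ℤ)
        (γ : F → EuclideanSpace ℝ (Fin 4)) (Φ : EuclideanSpace ℝ (Fin 4) → ℍ[ℝ]),
        Std s t 1 c d ⟨0, α, ρ, 0⟩ ⟨0, β, σ * p.1, σ * p.2⟩ ∧
        Finite F ∧ IsPolytope 3 F rk ∧ IsRealization rk γ ∧ IsChiral rk γ ∧
        Model rk γ Φ s t}.Finite) := by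
  refine ⟨?_, ?_, ?_, ?_⟩
  · intro F _ _ rk γ hF hP hR hC
    exact classify_full hP hR hC
  · intro s t ε c d a b H h hst
    exact construct_full H h hst
  · intro F _ _ rk γ F' _ _ rk' γ' hP hR hP' hR' Φ Φ' s t s' t' ε c d ε' c' d' a b a' b' H H' h h' M M'
    exact simil_iff hP hR hP' hR' H H' h h' M M'
  · intro c d α β ρ σ hcd hd hρ hσ hne h1 h2
    exact generic hcd hd hρ hσ hne h1 h2

end Pool.Agent.Results.MP_bc704c_co.FinitePolyhedra
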