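import Pool.Agent.Lib.MP_bc704c_co.Defs
import Pool.Agent.Lib.MP_bc704c_co.Main

/-!
# MP_bc704c_co, Q1: there are no chiral polytopes of nearly full rank of rank at least 7

In particular the list asked for in Q1 is empty for every dimension `d ≥ 8`.
-/

namespace Pool.Agent.Results.MP_bc704c_co.LargeRank

open ChiralNF

/-- **No chiral polytope of nearly full rank has rank at least 7**: for `n ≥ 7` there is no finite
chiral `n`-polytope in `E^(n+1)` and no infinite chiral `n`-polytope in `E^n`. -/
theorem result {n d : ℕ} (hn : 7 ≤ n) {F : Type*} [PartialOrder F] [BoundedOrder F] {rk : F → ℤ}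
    (hP : IsPolytope n F rk) {β : F → EuclideanSpace ℝ (Fin d)} (hβ : IsRealization rk β)
    (hnf : NearlyFullRank n d F) : ¬ IsChiral rk β := by
  apply main hP hβ hn
  rcases hnf with ⟨h1, h2⟩ | ⟨_, h2⟩
  · exact Or.inl ⟨h1, h2.ge⟩
  · exact Or.inr h2.ge

end Pool.Agent.Results.MP_bc704c_co.LargeRank
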